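import Pool.Agent.Q96.GT.Gonl0
import Pool.Agent.Q225.GT.Aff
import Pool.Agent.Q103.FS.Core0
import Pool.Agent.Q144.SU.Crc
import Pool.Agent.Q144.SU.Ext

/-!
# Gonality of the fields of definition of maps with many preperiodic points (project GT, L3)
-/

set_option autoImplicit false

namespace Pool.Agent.Q96.GT

open Pool.Agent.Q41.GT

theorem gonl : S_gonl :=
  t_gonl Pool.Agent.Q225.GT.aff Pool.Agent.Q103.FS.core0.{0} Pool.Agent.Q144.SU.crc.{0}
    Pool.Agent.Q144.SU.ext.{0, 0}

end Pool.Agent.Q96.GT
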