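import Pool.Agent.Q41.GT.Stm4
import Pool.Agent.Q144.SU.B1

/-!
# Gonality of the fields of definition of maps with many preperiodic points (project GT, L3)
-/

set_option autoImplicit false

namespace Pool.Agent.Q96.GT

open Pool.Agent.Q41.GT Pool.Agent.Q41.SU
open Pool.Agent.W277.UH (ConjConst ratP1)
open Finset Polynomial

/-- the orbits of three preperiodic points form a finite stable set -/
theorem exists_orb {A : Type} [DecidableEq A] (F : A → A) (T : Finset A)
    (hT : ∀ z ∈ T, (Set.range fun m : ℕ => F^[m] z).Finite) :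
    ∃ O : Finset A, (∀ z ∈ O, F z ∈ O) ∧ T ⊆ O := by
  have h1 : (⋃ z ∈ T, Set.range fun m : ℕ => F^[m] z).Finite :=
    T.finite_toSet.biUnion fun z hz => hT z hz
  refine ⟨h1.toFinset, ?_, ?_⟩
  · intro z hz
    rw [Set.Finite.mem_toFinset, Set.mem_iUnion₂] at hz ⊢
    obtain ⟨w, hw, m, hm⟩ := hz
    refine ⟨w, hw, m + 1, ?_⟩
    simp only at hm ⊢
    rw [Function.iterate_succ_apply', hm]
  · intro z hz
    rw [Set.Finite.mem_toFinset, Set.mem_iUnion₂]
    exact ⟨z, hz, 0, rfl⟩

/-- the last element of a transcendence basis is transcendental over the field generated by the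
others, and `K` is finite over the field generated by it, of the same degree -/
theorem last_data {k K : Type} [Field k] [Field K] [Algebra k K] (w : ℕ) (hw : 1 ≤ w)
    (t : Fin w → K) (ht : IsTranscendenceBasis k t)
    (hfd : FiniteDimensional (IntermediateField.adjoin k (Set.range t)) K) :
    ∃ (k₁ : IntermediateField k K) (x : K), Transcendental k₁ x ∧
      FiniteDimensional (IntermediateField.adjoin k₁ {x}) K ∧
      Module.finrank (IntermediateField.adjoin k₁ {x}) K =
        Module.finrank (IntermediateField.adjoin k (Set.range t)) K := by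
  set l : Fin w := ⟨w - 1, by omega⟩ with hl
  set S : Set K := t '' {l}ᶜ with hS
  refine ⟨IntermediateField.adjoin k S, t l, ?_, ?_⟩
  · rw [IntermediateField.transcendental_adjoin_iff]
    exact ht.1.transcendental_adjoin (s := {l}ᶜ) (i := l) (by simp)
  · have h1 : (IntermediateField.adjoin (IntermediateField.adjoin k S) {t l}).restrictScalars k =
        IntermediateField.adjoin k (Set.range t) := by
      rw [IntermediateField.adjoin_adjoin_left]
      congr 1
      rw [hS, ← Set.image_singleton, ← Set.image_union, Set.union_comm, Set.union_compl_self,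
        Set.image_univ]
    have h2 : ∀ F : IntermediateField k K, F = IntermediateField.adjoin k (Set.range t) →
        FiniteDimensional F K ∧
        Module.finrank F K = Module.finrank (IntermediateField.adjoin k (Set.range t)) K := by
      rintro F rfl
      exact ⟨hfd, rfl⟩
    exact h2 _ h1

theorem t_gonl (haff : S_aff) (hcore : S_core.{0}) (hcrc : S_crc.{0}) (hext : S_ext.{0, 0}) :
    S_gonl := by
  classical
  intro d D hd
  obtain ⟨B, hB⟩ := hcore d D.factorial hd
  refine ⟨B + (3 * d + 7), ?_⟩
  intro k K _ _ _ _ w hw t ht hfd hfr p q hco hmax h3 halg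
  obtain ⟨k₁, x, hx, hfdx, hfrx⟩ := last_data w hw t ht hfd
  apply Pool.Agent.Q144.SU.B.prePer_of_stable
  intro P hP
  by_contra hcon
  push Not at hcon
  obtain ⟨O, hO, hTO⟩ := exists_orb (ratP1 p q d) ({none, some 0, some 1} : Finset (Option K))
    (by
      intro z hz
      rw [Finset.mem_insert, Finset.mem_insert, Finset.mem_singleton] at hz
      exact h3 z hz)
  have hcard : P.card ≤ (P ∪ O).card := Finset.card_le_card Finset.subset_union_left
  obtain ⟨p', q', P', hp', hq', hco', hst', hcard', halg'⟩ := haff k K d hd p q hco hmax (P ∪ O)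
    (by
      intro z hz
      rcases Finset.mem_union.1 hz with h | h
      · exact Finset.mem_union_left _ (hP z h)
      · exact Finset.mem_union_right _ (hO z h))
    (Finset.mem_union_right _ (hTO (by simp))) (Finset.mem_union_right _ (hTO (by simp)))
    (Finset.mem_union_right _ (hTO (by simp))) (by omega) halg
  obtain ⟨k', E, _, _, _, _, _, j, t', G, _, hgal, hG, hback⟩ := hext k₁ K x hx hfdx D
    (by rw [hfrx]; exact hfr)
  have hjinj : Function.Injective j := j.injective
  have hst2 : Stab (p'.map j) (q'.map j) (P'.image j) := by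
    intro y hy
    obtain ⟨z, hz, rfl⟩ := Finset.mem_image.mp hy
    obtain ⟨e1, e2⟩ := hst' z hz
    rw [eval_map_apply, eval_map_apply]
    refine ⟨(map_ne_zero j).mpr e1, ?_⟩
    rw [← map_div₀]
    exact Finset.mem_image_of_mem _ e2
  have hcoj : IsCoprime (p'.map j) (q'.map j) := hco'.map (Polynomial.mapRingHom j)
  have hcc : ConjConst k' (p'.map j) (q'.map j) d := by
    by_contra hno
    have h2 := hB k' E t' G hgal hG (p'.map j) (q'.map j)
      (natDegree_map_le.trans hp') (by rw [natDegree_map]; exact hq') hcoj (P'.image j) hst2 hno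
    rw [Finset.card_image_of_injective _ hjinj] at h2
    omega
  have hcr := hcrc k' E d (p'.map j) (q'.map j) hd (natDegree_map_le.trans hp')
    (natDegree_map_le.trans hq'.le) (by
      rw [natDegree_map, natDegree_map, hq']
      exact max_eq_right hp') hcoj hcc (P'.image j) hst2
  -- the cross ratios are algebraic over `k₁`
  have hcrs : ∀ c ∈ crs P', IsAlgebraic k₁ c := by
    rintro _ ⟨x0, h0, x1, h1, x2, h2, y, hy, h01, h02, h12, hx2, hx0, rfl⟩
    obtain ⟨c, hc⟩ := hcr (j x0) (Finset.mem_image_of_mem _ h0) (j x1)
      (Finset.mem_image_of_mem _ h1) (j x2) (Finset.mem_image_of_mem _ h2) (j y)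
      (Finset.mem_image_of_mem _ hy) (hjinj.ne h01) (hjinj.ne h02) (hjinj.ne h12)
      (hjinj.ne hx2) (hjinj.ne hx0)
    apply hback
    refine ⟨c, ?_⟩
    rw [hc, map_div₀, map_mul, map_mul, map_sub, map_sub, map_sub, map_sub]
  have hle : IntermediateField.adjoin k (crs P') ≤
      (algebraicClosure k₁ K).restrictScalars k := by
    rw [IntermediateField.adjoin_le_iff]
    intro c hc
    exact mem_algebraicClosure_iff.2 (hcrs c hc)
  -- `x` is algebraic over the algebraic closure of `k₁`
  have hxalg : IsAlgebraic (algebraicClosure k₁ K) x := by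
    obtain ⟨f, hf0, hf⟩ := halg'.isAlgebraic x
    refine ⟨f.map (IntermediateField.inclusion hle).toRingHom, ?_, ?_⟩
    · exact (Polynomial.map_ne_zero_iff (IntermediateField.inclusion hle).toRingHom.injective).2 hf0
    · rw [aeval_def, eval₂_map] at *
      exact hf
  have hxk : IsAlgebraic k₁ x := by
    have : Algebra.IsAlgebraic k₁ (algebraicClosure k₁ K) := inferInstance
    exact hxalg.restrictScalars k₁
  exact hx hxk

end Pool.Agent.Q96.GT
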